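import Pool.Agent.Helper42.MI.Fin

set_option autoImplicit false

/-!
# The exponents of the negative eigenvalues of Weil's form are the real parts of the zeros

For `X > 1` consider Weil's Hermitian form `W` on the smooth functions supported in the symmetric interval of
length `log X`, relative to a norm `E w` between the logarithmic norm (the form norm of `W`) and any Sobolev norm.
Let `λ_k (X)` be the `k`-th smallest value of `W` relative to `E w` (min-max). We prove, with no hypothesis on the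
zeros, that `log⁺ (- λ_k (X)) / log X` tends to the `k`-th largest real part of a zero of zeta minus `1 / 2`.
In particular there is a zero-free half-plane if and only if `λ_1 (X) ≥ - X ^ κ` for some `κ < 1 / 2` and
arbitrarily large `X`.
-/

namespace Pool.Agent.Results.MP_5a4862_nt.EigenvalueExponents

open Filter Topology MeasureTheory
open scoped ContDiff ComplexConjugate
open Pool.Agent.Helper42

/-- The nontrivial zeros of the Riemann zeta function. -/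
abbrev Z : Type := {ρ : ℂ // riemannZeta ρ = 0 ∧ 0 < ρ.re ∧ ρ.re < 1}

/-- The two-sided Laplace transform of a test function, normalised at the critical line. -/
noncomputable def T (g : ℝ → ℂ) (s : ℂ) : ℂ := ∫ x : ℝ, g x * Complex.exp ((s - 1 / 2) * x)

/-- The contribution of the zero `ρ`, counted with multiplicity, to Weil's Hermitian form. -/
noncomputable def term (g : ℝ → ℂ) (ρ : Z) : ℂ :=
  (analyticOrderNatAt riemannZeta (ρ : ℂ) : ℂ) * (T g ρ * conj (T g (1 - conj (ρ : ℂ))))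

/-- Weil's Hermitian form (on the diagonal). -/
noncomputable def W (g : ℝ → ℂ) : ℂ := ∑' ρ : Z, term g ρ

/-- The test functions: smooth, supported in the symmetric interval of length `log X`. -/
def Test (X : ℝ) (g : ℝ → ℂ) : Prop :=
  ContDiff ℝ ∞ g ∧ ∀ x : ℝ, x ∉ Set.Icc (-(Real.log X / 2)) (Real.log X / 2) → g x = 0

/-- The admissible weights: measurable, at least `log (2 + |t|)`, and of at most polynomial growth. -/
def Weight (w : ℝ → ℝ) : Prop :=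
  Measurable w ∧ (∀ t, Real.log (2 + |t|) ≤ w t) ∧ ∃ (C : ℝ) (A : ℕ), ∀ t, w t ≤ C * (1 + |t|) ^ A

/-- The (square of the) norm with weight `w` on the critical line. -/
noncomputable def E (w : ℝ → ℝ) (g : ℝ → ℂ) : ℝ := ∫ t : ℝ, w t * ‖T g (1 / 2 + t * Complex.I)‖ ^ 2

/-- `W + X ^ κ * E w` is negative definite on the span of some `k` test functions. -/
def Below (w : ℝ → ℝ) (X κ : ℝ) (k : ℕ) : Prop :=
  ∃ h : Fin k → ℝ → ℂ, (∀ j, Test X (h j)) ∧
    ∀ a : Fin k → ℂ, a ≠ 0 → (W fun x => ∑ j, a j * h j x).re < -(X ^ κ * E w fun x => ∑ j, a j * h j x)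

/-- The exponent of the `k`-th smallest eigenvalue of `W` relative to `E w`: the supremum of the `κ ≥ 0` with
`Below w X κ k`. If `λ_k` is the `k`-th min-max value of `W / E w` on the test functions, then `Below w X κ k` says
that `λ_k < - X ^ κ`, so that this is `max 0 (log (- λ_k) / log X)`. -/
noncomputable def level (w : ℝ → ℝ) (X : ℝ) (k : ℕ) : ℝ := sSup {κ : ℝ | 0 ≤ κ ∧ Below w X κ k}

/-- The `k`-th largest real part of the zeros, minus `1 / 2`: the supremum of the `κ ≥ 0` such that at least `k`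
distinct zeros have real part greater than `1 / 2 + κ` (zero if there is none). -/
noncomputable def kth (k : ℕ) : ℝ := sSup {κ : ℝ | 0 ≤ κ ∧ (k : ℕ∞) ≤ {ρ : Z | 1 / 2 + κ < (ρ : ℂ).re}.encard}

/-- The zeros to the right of the critical line with real part greater than `σ`. -/
def right (σ : ℝ) : Set Z := {ρ : Z | 1 / 2 < (ρ : ℂ).re ∧ σ < (ρ : ℂ).re}

/-- The same up to height `X`. -/
def rightUpTo (X σ : ℝ) : Set Z := {ρ : Z | 1 / 2 < (ρ : ℂ).re ∧ σ < (ρ : ℂ).re ∧ |(ρ : ℂ).im| ≤ X}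

/-- `W ≥ - X ^ κ * E w` on the test functions. -/
def LowerBound (w : ℝ → ℝ) (X κ : ℝ) : Prop := ∀ g : ℝ → ℂ, Test X g → -(X ^ κ * E w g) ≤ (W g).re

/-- The assertion of the problem: a zero-free half-plane. -/
def HalfPlane : Prop := ∃ σ₀ : ℝ, 1 / 2 < σ₀ ∧ σ₀ < 1 ∧ ∀ s : ℂ, σ₀ ≤ s.re → riemannZeta s ≠ 0

lemma E_eq (w : ℝ → ℝ) (g : ℝ → ℂ) : E w g = MI.Ew w g := by
  unfold E MI.Ew WB.den
  congr 1
  funext t
  show w t * ‖Helper61.W.LT g (1 / 2 + t * Complex.I - 1 / 2)‖ ^ 2 = _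
  rw [add_sub_cancel_left]

lemma Wgt_of {w : ℝ → ℝ} (h : Weight w) : MI.Wgt w := ⟨h.1, h.2.1, h.2.2⟩

lemma Below_eq (w : ℝ → ℝ) (X κ : ℝ) (k : ℕ) : Below w X κ k ↔ MI.BelW w X κ k := by
  unfold Below MI.BelW
  simp_rw [E_eq]
  rfl

lemma LowerBound_eq (w : ℝ → ℝ) (X κ : ℝ) : LowerBound w X κ ↔ MI.Lwr w X κ := by
  unfold LowerBound MI.Lwr
  simp_rw [E_eq]
  rfl

lemma level_eq (w : ℝ → ℝ) (X : ℝ) (k : ℕ) : level w X k = MI.level w X k := by
  unfold level MI.level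
  simp_rw [Below_eq]

lemma half_of {w : ℝ → ℝ} (hw : Weight w) (h : ∃ κ : ℝ, 0 ≤ κ ∧ κ < 1 / 2 ∧ ∀ X₀ : ℝ, ∃ X : ℝ, X₀ ≤ X ∧ LowerBound w X κ) :
    HalfPlane := by
  obtain ⟨κ, hκ0, hκ, h⟩ := h
  simp_rw [LowerBound_eq] at h
  have h1 := MI.of_Lwr (Wgt_of hw) hκ0 h
  refine ⟨(1 / 2 + κ + 1) / 2, by linarith, by linarith, fun s hs hz => ?_⟩
  rcases lt_or_ge s.re 1 with h2 | h2
  · have := h1 ⟨s, hz, by linarith, h2⟩
    have h3 : s.re ≤ 1 / 2 + κ := this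
    linarith
  · exact riemannZeta_ne_zero_of_one_le_re h2 hz

lemma of_half {w : ℝ → ℝ} (hw : Weight w) (h : HalfPlane) :
    ∃ κ : ℝ, 0 ≤ κ ∧ κ < 1 / 2 ∧ ∃ X₀ : ℝ, ∀ X : ℝ, X₀ ≤ X → LowerBound w X κ := by
  obtain ⟨σ, h1, h2, h3⟩ := h
  simp_rw [LowerBound_eq]
  refine ⟨σ / 2, by linarith, by linarith, MI.Lwr_of (Wgt_of hw) (σ := σ) (by linarith) (by linarith) fun ρ => ?_⟩
  by_contra hlt
  push Not at hlt
  exact h3 ρ hlt.le ρ.2.1

/-- The exponents of the negative eigenvalues of Weil's form are the real parts of the zeros. -/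
theorem result :
    -- absolute convergence
    (∀ X : ℝ, ∀ g : ℝ → ℂ, Test X g → Summable (term g) ∧ (W g).im = 0) ∧
    (∀ w : ℝ → ℝ, Weight w →
      (∀ X : ℝ, ∀ g : ℝ → ℂ, Test X g → Integrable fun t : ℝ => w t * ‖T g (1 / 2 + t * Complex.I)‖ ^ 2) ∧
      -- the limit law
      (∀ k : ℕ, 1 ≤ k → (∀ᶠ X : ℝ in atTop, BddAbove {κ : ℝ | 0 ≤ κ ∧ Below w X κ k}) ∧
        Tendsto (fun X : ℝ => level w X k) atTop (𝓝 (kth k))) ∧
      -- every finite set of zeros is seen, on its level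
      (∀ κ : ℝ, 0 ≤ κ → ∀ S : Finset Z, (∀ ρ ∈ S, 1 / 2 + κ < (ρ : ℂ).re) →
        ∃ X₀ : ℝ, ∀ X : ℝ, X₀ ≤ X → Below w X κ S.card) ∧
      -- the zero-free half-plane
      (HalfPlane ↔ ∃ κ : ℝ, 0 ≤ κ ∧ κ < 1 / 2 ∧ ∃ X₀ : ℝ, ∀ X : ℝ, X₀ ≤ X → LowerBound w X κ) ∧
      (HalfPlane ↔ ∃ κ : ℝ, 0 ≤ κ ∧ κ < 1 / 2 ∧ ∀ X₀ : ℝ, ∃ X : ℝ, X₀ ≤ X ∧ LowerBound w X κ)) ∧
    -- the upper bound for the index, uniform in the weight and in the level
    (∀ ε : ℝ, 0 < ε → ∃ X₀ : ℝ, ∀ w : ℝ → ℝ, Weight w → ∀ X : ℝ, X₀ ≤ X → ∀ κ : ℝ, 0 ≤ κ →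
      (∀ g : ℝ → ℂ, Test X g → (∀ ρ ∈ right (1 / 2 + κ - ε), T g (ρ : ℂ) = 0) → -(X ^ κ * E w g) ≤ (W g).re) ∧
      (∀ k : ℕ, Below w X κ k → (k : ℕ∞) ≤ (right (1 / 2 + κ - ε)).encard) ∧
      ((∀ t, 1 + t ^ 2 ≤ w t) → (rightUpTo X (1 / 2 + κ - ε)).Finite ∧
        ∀ k : ℕ, Below w X κ k → k ≤ (rightUpTo X (1 / 2 + κ - ε)).ncard)) := by
  refine ⟨fun X g hg => ⟨MI.wt_summable (MI.Tst.tf hg), MI.Wf_im (MI.Tst.tf hg)⟩, fun w hw => ?_, fun ε hε => ?_⟩
  · refine ⟨fun X g hg => ?_, fun k hk => ⟨?_, ?_⟩, fun κ hκ S hS => ?_, ⟨of_half hw, fun h => half_of hw ?_⟩,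
      ⟨fun h => ?_, half_of hw⟩⟩
    · refine (MI.Ew_int (Wgt_of hw) (MI.Tst.tf hg)).congr (Eventually.of_forall fun t => ?_)
      show w t * ‖Helper61.W.LT g (t * Complex.I)‖ ^ 2 =
        w t * ‖Helper61.W.LT g (1 / 2 + t * Complex.I - 1 / 2)‖ ^ 2
      rw [add_sub_cancel_left]
    · obtain ⟨X0, hX0, h⟩ := MI.upperW 1 one_pos
      filter_upwards [eventually_ge_atTop X0] with X hX
      refine ⟨2, fun κ hκ => ?_⟩
      obtain ⟨hκ0, hb⟩ := hκ
      rw [Below_eq] at hb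
      have h1 := (h w (Wgt_of hw) X hX κ hκ0).2.1 k hb
      by_contra hlt
      push Not at hlt
      have h2 := MI.kth_bdd (κ := κ - 1) hk (h1.trans (Set.encard_le_encard fun ρ hρ => by
        have := hρ.2
        show 1 / 2 + (κ - 1) < (ρ : ℂ).re
        linarith))
      linarith
    · have := MI.level_tendsto (Wgt_of hw) hk
      refine this.congr fun X => ?_
      rw [level_eq]
    · obtain ⟨X0, _, h⟩ := MI.lowerW (Wgt_of hw) hκ S hS
      refine ⟨X0, fun X hX => ?_⟩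
      rw [Below_eq]
      exact h X hX
    · obtain ⟨κ, h0, h1, X0, h2⟩ := h
      exact ⟨κ, h0, h1, fun X1 => ⟨max X0 X1, le_max_right _ _, h2 _ (le_max_left _ _)⟩⟩
    · obtain ⟨κ, h0, h1, X0, h2⟩ := of_half hw h
      exact ⟨κ, h0, h1, fun X1 => ⟨max X0 X1, le_max_right _ _, h2 _ (le_max_left _ _)⟩⟩
  · obtain ⟨X0, _, h⟩ := MI.upperW ε hε
    refine ⟨X0, fun w hw X hX κ hκ => ?_⟩
    obtain ⟨h1, h2, h3⟩ := h w (Wgt_of hw) X hX κ hκ
    simp_rw [Below_eq, E_eq]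
    exact ⟨h1, h2, fun h4 => ⟨MI.seen_finite _ _, h3 h4⟩⟩

end Pool.Agent.Results.MP_5a4862_nt.EigenvalueExponents
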