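import Pool.Agent.Helper87.HF.VinoC

/-!
# The de Bruijn–Newman flow near time zero and zero-free half-planes

`H_t` is the de Bruijn–Newman family, `H_0(z) = ξ((1 + iz)/2)/8`.  For `κ > 0` let `y*(κ)` be the upper limit, as
`t → 0+`, of the largest `|Im z|` of the zeros of `H_t` with `|Re z| ≥ exp(κ/t)`.  We determine `y*(κ)`:

`y*(κ) = sup_{1/2 ≤ σ ≤ Θ} max(0, 2σ - 1 - κ/2 + 2 √(κ μ(σ)))`,

where `μ(σ)` is the order of zeta on the line `Re s = σ` and `Θ` the upper limit of the real parts of the zeros.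
So zeta has a zero-free half-plane if and only if `y*(κ) < 1 - κ/2` for some `κ > 0`, while unconditionally
`y*(κ) ≤ 1 - κ/2 + Cκ²`.  The law is local in the height.

(That all zeros of `H_t` far out lie in a fixed strip is taken from helper54's `Pool/Agent/Helper54/Hf/S8.lean`.)
-/

set_option autoImplicit false

open Complex MeasureTheory Filter Topology

namespace Pool.Agent.Results.MP_5a4862_nt.HeatFlowStrips

open Pool.Agent.Helper87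

/-- `Φ(u) = ∑_{n ≥ 1} (2π²n⁴e^{9u} - 3πn²e^{5u}) exp(-πn²e^{4u})` -/
noncomputable def Phi (u : ℝ) : ℝ :=
  ∑' n : ℕ, (2 * Real.pi ^ 2 * ((n : ℝ) + 1) ^ 4 * Real.exp (9 * u) -
    3 * Real.pi * ((n : ℝ) + 1) ^ 2 * Real.exp (5 * u)) *
      Real.exp (-(Real.pi * ((n : ℝ) + 1) ^ 2 * Real.exp (4 * u)))

/-- The de Bruijn–Newman family `H_t(z) = ∫_0^∞ e^{tu²} Φ(u) cos(zu) du`. -/
noncomputable def H (t : ℝ) (z : ℂ) : ℂ :=
  ∫ u in Set.Ioi (0 : ℝ), ((Real.exp (t * u ^ 2) * Phi u : ℝ) : ℂ) * Complex.cos (z * u)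

/-- The largest `|Im z|` of the zeros `z` of `H_t` with `|Re z| ≥ exp(κ/t)` (`0` if there are none). -/
noncomputable def Y (κ t : ℝ) : ℝ :=
  sSup {y : ℝ | y = 0 ∨ ∃ z : ℂ, H t z = 0 ∧ Real.exp (κ / t) ≤ |z.re| ∧ y = |z.im|}

/-- `y*(κ) = limsup_{t → 0+} Y(κ, t)` -/
noncomputable def yStar (κ : ℝ) : ℝ := limsup (fun t : ℝ => Y κ t) (𝓝[>] 0)

/-- The order of zeta on the line `Re s = σ`: the infimum of the `a ≥ 0` with `|ζ(σ + iT)| ≤ T^a` for all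
large `T`. -/
noncomputable def mu (σ : ℝ) : ℝ :=
  sInf {a : ℝ | 0 ≤ a ∧ ∃ T0 : ℝ, ∀ T : ℝ, T0 ≤ T → ‖riemannZeta (σ + T * I)‖ ≤ T ^ a}

/-- The upper limit of the real parts of the zeros of zeta: the infimum of the `θ ≥ 1/2` such that the zeros
with real part `> θ` have bounded height. -/
noncomputable def Theta : ℝ :=
  sInf {θ : ℝ | 1 / 2 ≤ θ ∧ ∃ T0 : ℝ, ∀ s : ℂ, T0 ≤ s.im → θ < s.re → riemannZeta s ≠ 0}

/-- The condition `Z(κ, y, ε)` at the height `T`: `ζ(1/2 + y/2 + v + iT) ≠ 0` for `v ≥ κ/4 + ε`, and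
`|ζ(1/2 + y/2 + v + iT)| ≤ T^(max(κ/4 - v, 0)²/κ + ε)` for `v ≥ 0`. -/
def Z (κ y ε T : ℝ) : Prop :=
  (∀ v : ℝ, κ / 4 + ε ≤ v → riemannZeta (1 / 2 + y / 2 + v + T * I) ≠ 0) ∧
  ∀ v : ℝ, 0 ≤ v → ‖riemannZeta (1 / 2 + y / 2 + v + T * I)‖ ≤ T ^ ((max (κ / 4 - v) 0) ^ 2 / κ + ε)

/-- The zeta function has a zero-free half-plane (the assertion of Q1). -/
def Q1 : Prop := ∃ σ0 : ℝ, 1 / 2 < σ0 ∧ σ0 < 1 ∧ ∀ s : ℂ, σ0 ≤ s.re → riemannZeta s ≠ 0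

lemma Z_iff {κ y ε T : ℝ} (hT : 1 ≤ T) : Z κ y ε T ↔ HF.LocS κ (y / 2) ε T := by
  have e : ∀ v : ℝ, (1 / 2 + y / 2 + v + T * I : ℂ) = 1 / 2 + T * I + ((y / 2 + v : ℝ) : ℂ) := fun v => by
    push_cast; ring
  unfold Z HF.LocS
  simp only [e]
  refine and_congr Iff.rfl (forall_congr' fun v => forall_congr' fun _ => ?_)
  rw [Real.rpow_def_of_pos (by linarith), mul_comm (Real.log T)]

/-- At time zero the family is Riemann's function: `H_0(z) = ξ((1 + iz)/2)/8`, with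
`ξ(s) = (s (s - 1) Λ₀(s) + 1)/2`. -/
theorem H_zero (z : ℂ) : H 0 z = (((1 + I * z) / 2) * ((1 + I * z) / 2 - 1) *
    completedRiemannZeta₀ ((1 + I * z) / 2) + 1) / 2 / 8 := by
  have h1 := HF.KI_Ht zero_le_one z
  rw [HF.Phi_mellin] at h1
  have h2 : H 0 z = HF.fx (I * z / 2) / 64 := by
    have : H 0 z = HF.Ht 0 z := rfl
    rw [this]
    linear_combination -h1 / 2
  rw [h2, HF.fx]
  have e : (1 / 2 + I * z / 2 : ℂ) = (1 + I * z) / 2 := by ring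
  rw [e]
  ring

/-- **The width of the strip of zeros beyond `exp(κ/t)`, and zero-free half-planes.** -/
theorem result :
    -- `y*(κ) = sup_{1/2 ≤ σ ≤ Θ} max(0, 2σ - 1 - κ/2 + 2 √(κ μ(σ)))`
    (∀ κ : ℝ, 0 < κ →
      IsLUB ((fun σ : ℝ => max 0 (2 * σ - 1 - κ / 2 + 2 * √(κ * mu σ))) '' Set.Icc (1 / 2) Theta) (yStar κ)) ∧
    -- in particular `2Θ - 1 - κ/2 ≤ y*(κ) ≤ max(0, 2Θ - 1 - κ/4)`, and `y*(κ) → 2Θ - 1` as `κ → 0`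
    (∀ κ : ℝ, 0 < κ → 2 * Theta - 1 - κ / 2 ≤ yStar κ ∧ yStar κ ≤ max 0 (2 * Theta - 1 - κ / 4)) ∧
    Tendsto yStar (𝓝[>] 0) (𝓝 (2 * Theta - 1)) ∧
    -- `y*(κ) = max(0, 2Θ - 1 - κ/2)` under the Lindelöf hypothesis
    (mu (1 / 2) = 0 → ∀ κ : ℝ, 0 < κ → yStar κ = max 0 (2 * Theta - 1 - κ / 2)) ∧
    -- there is a zero-free half-plane if and only if `y*(κ) < 1 - κ/2` for some `κ > 0`
    (Q1 ↔ ∃ κ : ℝ, 0 < κ ∧ yStar κ < 1 - κ / 2) ∧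
    -- unconditional bounds
    (∃ C : ℝ, 0 < C ∧ ∀ κ : ℝ, 0 < κ → yStar κ ≤ 1 - κ / 2 + C * κ ^ 2) ∧
    (∀ κ : ℝ, 0 < κ → yStar κ ≤ max (1 - 3 * κ / 8) (max (3 / 4 - 5 * κ / 18) 0)) ∧
    -- the zeros beyond `exp(κ/t)` have `|Im z| < y*(κ) + ε` for all small `t`
    (∀ κ ε : ℝ, 0 < κ → 0 < ε → ∃ t0 : ℝ, 0 < t0 ∧ ∀ t : ℝ, 0 < t → t ≤ t0 → ∀ z : ℂ,
      Real.exp (κ / t) ≤ |z.re| → H t z = 0 → |z.im| < yStar κ + ε) ∧
    -- the law is local: zeros in a strip near `2T` at the time `κ/log T` give `Z(κ, y, ε)` at the height `T`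
    (∀ κ y ε : ℝ, 0 < κ → 0 ≤ y → y ≤ 1 → 0 < ε → ∃ δ C T0 : ℝ, 0 < δ ∧ ∀ T : ℝ, T0 ≤ T →
      (∀ z : ℂ, |z.re - 2 * T| ≤ C → H (κ / Real.log T) z = 0 → |z.im| < y + δ) → Z κ y ε T) ∧
    -- and `Z(κ, y, ε)` near the height `T` gives zeros in a strip near `2T` from the time `κ/log T` on
    (∀ κ y δ R : ℝ, 0 < κ → 0 ≤ y → y ≤ 1 → 0 < δ → 0 ≤ R → ∃ ε C T0 t0 : ℝ, 0 < ε ∧ 0 < t0 ∧
      ∀ T : ℝ, T0 ≤ T → (∀ T' : ℝ, |T' - T| ≤ C → Z κ y ε T') → ∀ t : ℝ, κ / Real.log T ≤ t → t ≤ t0 →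
      ∀ z : ℂ, |z.re - 2 * T| ≤ R → H t z = 0 → |z.im| < y + δ) := by
  refine ⟨fun κ hκ => HF.closedS κ hκ, fun κ hκ => ⟨HF.yStar_ge hκ, HF.yStar_le hκ⟩, HF.yStar_lim,
    fun h κ hκ => HF.yStar_LH hκ h, HF.Q1_yStar, HF.yStar_vino, fun κ hκ => HF.yStar_corput hκ,
    fun κ ε hκ hε => ?_, fun κ y ε hκ hy hy1 hε => ?_, fun κ y δ R hκ hy hy1 hδ hR => ?_⟩
  · exact (HF.yStar_le_iffAll hκ (HF.yStar_nonneg hκ)).1 le_rfl _ (by
      show HF.yStar κ < HF.yStar κ + ε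
      linarith)
  · obtain ⟨δ, C, T0, hδ, h0⟩ := HF.strip_inv κ (y / 2) ε hκ (by linarith) (by linarith) hε
    refine ⟨δ, C, max T0 1, hδ, fun T hT h => (Z_iff ((le_max_right _ _).trans hT)).2
      (h0 T ((le_max_left _ _).trans hT) fun z b1 _ b3 => ?_)⟩
    have := h z b1 b3
    linarith
  · obtain ⟨ε, C, T0, t0, hε, ht0, h0⟩ := HF.strip_dirAll κ (y / 2) δ R hκ (by linarith) (by linarith) hδ hR
    refine ⟨ε, C, max T0 (1 + C), t0, hε, ht0, fun T hT h t h1 h2 z h3 h5 => ?_⟩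
    have hT1 : T0 ≤ T := (le_max_left _ _).trans hT
    have hT2 : 1 + C ≤ T := (le_max_right _ _).trans hT
    have := h0 T hT1 (fun T' hT' => (Z_iff (by linarith [(abs_le.1 hT').1])).1 (h T' hT')) t h2 h1 z h3 h5
    linarith

end Pool.Agent.Results.MP_5a4862_nt.HeatFlowStrips
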