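import Pool.Agent.Helper75.LQ.Last
import Pool.Agent.Helper75.AL.Back
import Pool.Agent.Helper75.LQ.Mea
import Pool.Agent.Helper68.JE.GrFew
import Pool.Agent.Helper85.LQ.Lin012

/-!
# The linear law for the Laguerre inequalities of the Riemann xi function

Csordas and Varga: write `|ξ(1/2 + y + ix)|² = ∑ L_m(x) y^(2m)`.  The Riemann hypothesis holds if and only if
`L_m(x) ≥ 0` for all real `x` and all `m` (`m = 1` is the Laguerre inequality for `Ξ`).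

Here only the inequalities of the orders `m ≥ κ log x` are used.  Let `Θ` be the upper limit of the real parts of
the zeros, `μ` the order of the zeta function on the critical line, `κ*` the least `κ` for which all inequalities of
the orders `m ≥ (κ + ε) log x` hold at all large heights.  Then `2 max(κ*, μ) ≤ Θ - 1/2 ≤ 2 κ* + 2 μ`, and with an
absolute constant `K`: `Θ - 1/2 ≤ K κ*`, `μ ≤ K κ*`.  The law holds locally, near each large height.  There is a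
zero-free half-plane `Re s > θ`, `θ < 1`, if and only if `κ* < 1/4`; unconditionally `κ* ≤ 1/4`.
-/

set_option autoImplicit false

open Complex Filter Topology

namespace Pool.Agent.Results.MP_5a4862_nt.LaguerreLinearLaw

/-- Riemann's entire function `ξ(s) = s (s - 1) π^(-s/2) Γ(s/2) ζ(s) / 2` -/
noncomputable def xi (s : ℂ) : ℂ := (s * (s - 1) * completedRiemannZeta₀ s + 1) / 2

/-- `(2m)!` times the coefficient `L_m(x)` of `y^(2m)` in `|ξ(1/2 + y + ix)|²` -/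
noncomputable def laguerre (m : ℕ) (x : ℝ) : ℝ :=
  iteratedDeriv (2 * m) (fun y : ℝ => ‖xi (1 / 2 + y + x * I)‖ ^ 2) 0

/-- the Laguerre inequalities of the orders `m ≥ κ log x` hold at all points of `[x - R, x + R]` -/
def LaguerreNear (κ x R : ℝ) : Prop :=
  ∀ x' : ℝ, |x' - x| ≤ R → ∀ m : ℕ, κ * Real.log x ≤ m → 0 ≤ laguerre m x'

/-- no zeros with `Re s > 1/2 + B` and `|Im s - x| ≤ R` -/
def NoZerosNear (B x R : ℝ) : Prop :=
  ∀ s : ℂ, riemannZeta s = 0 → |s.im - x| ≤ R → s.re ≤ 1 / 2 + B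

/-- for every `c > κ` the Laguerre inequalities of the orders `m ≥ c log x` hold for all large `x` -/
def Threshold (κ : ℝ) : Prop :=
  ∀ c > κ, ∃ X : ℝ, ∀ x : ℝ, X ≤ x → ∀ m : ℕ, c * Real.log x ≤ m → 0 ≤ laguerre m x

/-- for every `ε > 0` all zeros at large heights have real part at most `θ + ε` -/
def Edge (θ : ℝ) : Prop :=
  ∀ ε > 0, ∃ T : ℝ, ∀ s : ℂ, riemannZeta s = 0 → T ≤ |s.im| → s.re ≤ θ + ε

/-- `ζ(1/2 + it) = O(t^(a + ε))` for every `ε > 0` -/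
def LineGrowth (a : ℝ) : Prop :=
  ∀ ε > 0, ∃ C : ℝ, ∀ t : ℝ, 1 ≤ t → ‖riemannZeta (1 / 2 + t * I)‖ ≤ C * t ^ (a + ε)

/-- `ζ(s) = O((Im s)^ε)` uniformly in `Re s ≥ σ`, for each `σ > θ` and each `ε > 0` -/
def RightGrowth (θ : ℝ) : Prop :=
  ∀ σ > θ, ∀ ε > 0, ∃ C : ℝ, ∀ s : ℂ, σ ≤ s.re → 1 ≤ s.im → ‖riemannZeta s‖ ≤ C * s.im ^ (ε : ℝ)

/-- the integers `n ≤ T` for which some `L_m(x) ≤ 0` with `x` in `[n, n + 1]` and `m ≥ κ log x` -/
def BadLaguerre (κ T : ℝ) : Set ℕ :=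
  {n : ℕ | (n : ℝ) ≤ T ∧ ∃ x : ℝ, n ≤ x ∧ x ≤ n + 1 ∧ ∃ m : ℕ, κ * Real.log x ≤ m ∧ laguerre m x ≤ 0}

/-- the integers `n ≤ T` for which there is a zero with `Re s > 1/2 + B` and `Im s` in `[n, n + 1]` -/
def BadZeros (B T : ℝ) : Set ℕ :=
  {n : ℕ | (n : ℝ) ≤ T ∧ ∃ s : ℂ, riemannZeta s = 0 ∧ (n : ℝ) ≤ s.im ∧ s.im ≤ n + 1 ∧ 1 / 2 + B < s.re}

open Pool.Agent.Helper85.LG Pool.Agent.Helper75.LQ

lemma laguerre_eq (m : ℕ) (x : ℝ) : laguerre m x = (2 * m).factorial * Lm x m := Lm_deriv m x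

lemma laguerre_pos (m : ℕ) (x : ℝ) : 0 < laguerre m x ↔ 0 < Lm x m := by
  rw [laguerre_eq]
  exact mul_pos_iff_of_pos_left (by exact_mod_cast (2 * m).factorial_pos)

lemma laguerre_nonneg (m : ℕ) (x : ℝ) : 0 ≤ laguerre m x ↔ 0 ≤ Lm x m := by
  rw [laguerre_eq]
  exact mul_nonneg_iff_of_pos_left (by exact_mod_cast (2 * m).factorial_pos)

lemma near_iff (κ x R : ℝ) : LaguerreNear κ x R ↔ LagX κ x R := by
  unfold LaguerreNear LagX
  simp only [laguerre_nonneg]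

lemma threshold_iff (κ : ℝ) : Threshold κ ↔ ∀ c > κ, LagC c := by
  unfold Threshold LagC
  simp only [laguerre_nonneg]

lemma bad_eq (κ T : ℝ) : BadLaguerre κ T = Ebad κ T := by
  ext n
  unfold BadLaguerre Ebad
  simp only [Set.mem_setOf_eq]
  have h : ∀ (m : ℕ) (x : ℝ), laguerre m x ≤ 0 ↔ Lm x m ≤ 0 := fun m x => by
    rw [← not_lt, ← not_lt, laguerre_pos]
  simp only [h]

lemma regZf : RegZf := fun _ _ hz h0 h1 => Pool.Agent.Helper39.LG.reg_zf hz h0 h1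

/-- **The linear law.** -/
theorem result :
    -- the parts with the absolute constant `K`
    (∃ K : ℝ, 0 < K ∧
      -- (1) the inequalities of high order alone bound the real parts of the zeros and the size
      (∀ κ : ℝ, 0 ≤ κ → Threshold κ → Edge (1 / 2 + K * κ) ∧ LineGrowth (K * κ)) ∧
      -- (2) this is local
      (∀ κ : ℝ, 0 < κ → ∃ R : ℝ, ∀ x : ℝ, R ≤ x → LaguerreNear κ x R →
        NoZerosNear (K * κ) x 1 ∧ ∀ t : ℝ, |t - x| ≤ 1 → ‖riemannZeta (1 / 2 + t * I)‖ ≤ x ^ (K * κ)) ∧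
      -- (4) counting
      (∀ κ κ' : ℝ, 0 < κ → κ < κ' → ∃ C : ℝ, ∀ T : ℝ, 1 ≤ T →
        ((BadZeros (K * κ') T).ncard : ℝ) ≤ C * (1 + (BadLaguerre κ (2 * T)).ncard))) ∧
    -- (1) the law with the constant `2`
    (∀ a κ : ℝ, 0 ≤ a → 0 ≤ κ → LineGrowth a → Threshold κ → Edge (1 / 2 + 2 * a + 2 * κ)) ∧
    (∀ θ : ℝ, 1 / 2 ≤ θ → θ ≤ 1 → Edge θ → Threshold ((θ - 1 / 2) / 2) ∧ LineGrowth ((θ - 1 / 2) / 2)) ∧
    (Edge (1 / 2) ↔ Threshold 0) ∧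
    (∀ θ : ℝ, 1 / 2 ≤ θ → θ ≤ 1 → (Edge θ ↔ RightGrowth θ ∧ Threshold ((θ - 1 / 2) / 2))) ∧
    ((∃ θ : ℝ, θ < 1 ∧ ∀ s : ℂ, θ < s.re → riemannZeta s ≠ 0) ↔ ∃ κ : ℝ, κ < 1 / 4 ∧ Threshold κ) ∧
    Threshold (1 / 4) ∧
    -- every zero close to the line `Re s = 1` violates an inequality of an order `≥ c log γ` at its own height `γ`
    (∀ c : ℝ, c < 1 / 4 → ∃ θ : ℝ, θ < 1 ∧ ∀ s : ℂ, θ < s.re → 0 ≤ s.im → riemannZeta s = 0 →
      ∃ m : ℕ, c * Real.log s.im ≤ m ∧ laguerre m s.im < 0) ∧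
    -- (2) local, from the inequalities and the size to the zeros
    (∀ a κ ε : ℝ, 0 ≤ a → a ≤ 1 / 2 → 0 ≤ κ → 0 < ε → ∃ R : ℝ, ∀ x : ℝ, R ≤ x → LaguerreNear κ x R →
      (∀ t : ℝ, |t - x| ≤ R → ‖riemannZeta (1 / 2 + t * I)‖ ≤ x ^ a) → NoZerosNear (2 * a + 2 * κ + ε) x 1) ∧
    -- (3) local, from the zeros to the inequalities and the size
    (∀ B κ : ℝ, 0 < κ → B < 2 * κ → ∃ R : ℝ, ∀ x : ℝ, R ≤ x → NoZerosNear B x R →
      ∀ m : ℕ, κ * Real.log x ≤ m → 0 < laguerre m x) ∧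
    (∀ B ε : ℝ, 0 ≤ B → B ≤ 1 / 2 → 0 < ε → ∃ R : ℝ, ∀ x : ℝ, R ≤ x → NoZerosNear B x R →
      ∀ t : ℝ, |t - x| ≤ 1 → ‖riemannZeta (1 / 2 + t * I)‖ ≤ x ^ (B / 2 + ε)) ∧
    -- (4) counting, and the orders `m ≥ κ log x`
    (∀ κ B : ℝ, 0 < κ → B < 2 * κ → ∃ C : ℝ, ∀ T : ℝ, 1 ≤ T →
      ((BadLaguerre κ T).ncard : ℝ) ≤ C * (1 + (BadZeros B (2 * T)).ncard)) ∧
    (∀ κ ε : ℝ, 0 < κ → κ ≤ 1 / 4 → 0 < ε → ∃ C : ℝ, ∀ T : ℝ, 1 ≤ T →
      ((BadLaguerre κ T).ncard : ℝ) ≤ C * T ^ (1 - 8 / 3 * κ + ε)) := by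
  obtain ⟨K, hK, hloc⟩ := loc_all
  have hglob : ∀ κ : ℝ, 0 ≤ κ → Threshold κ → Edge (1 / 2 + K * κ) ∧ LineGrowth (K * κ) := by
    intro κ hκ hT
    obtain ⟨h1, h2⟩ := lin_of_loc hK hloc hκ ((threshold_iff κ).1 hT)
    refine ⟨fun ε hε => ?_, h1⟩
    obtain ⟨T, hT⟩ := h2 ε hε
    exact ⟨T, fun s hs him => (hT s hs him).trans (by linarith)⟩
  have hdir : ∀ θ : ℝ, 1 / 2 ≤ θ → Edge θ → Threshold ((θ - 1 / 2) / 2) := by
    intro θ hθ hE
    rw [threshold_iff]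
    intro c hc
    obtain ⟨X, hX⟩ := Pool.Agent.Helper85.LQ.st_L0 (θ + (c - (θ - 1 / 2) / 2)) c (hE _ (by linarith))
      (by linarith) (by linarith)
    exact ⟨X, fun x hx m hm => (hX x hx m hm).le⟩
  refine ⟨⟨K, hK, hglob, ?_, ?_⟩, ?_, ?_, ?_, ?_, ?_, ?_, ?_, ?_, ?_, ?_, ?_, ?_⟩
  · intro κ hκ
    obtain ⟨R, hR⟩ := hloc κ hκ
    exact ⟨R, fun x hx hl => hR x hx ((near_iff κ x R).1 hl)⟩
  · intro κ κ' hκ hκ'
    obtain ⟨C, hC⟩ := Z_le_bad hloc hκ hκ'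
    exact ⟨C, fun T hT => by rw [bad_eq]; exact hC T hT⟩
  · intro a κ ha hκ hG hT ε hε
    obtain ⟨T, hT⟩ := Pool.Agent.Helper75.AL.sharp_glob ha hκ hG ((threshold_iff κ).1 hT) ε hε
    exact ⟨T, fun s hs him => (hT s hs him).trans (by linarith)⟩
  · intro θ hθ hθ1 hE
    refine ⟨hdir θ hθ hE, Pool.Agent.Helper75.AL.line_glob (by linarith) (by linarith) fun ε hε => ?_⟩
    obtain ⟨T, hT⟩ := hE ε hε
    exact ⟨T, fun s hs him => (hT s hs him).trans (by linarith)⟩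
  · constructor
    · intro hE
      have := hdir (1 / 2) le_rfl hE
      simpa using this
    · intro hT
      have := (hglob 0 le_rfl hT).1
      simpa using this
  · intro θ hθ hθ1
    constructor
    · intro hE
      exact ⟨Pool.Agent.Helper68.JE.gr_of_few hθ hE, hdir θ hθ hE⟩
    · rintro ⟨hG, hT⟩
      intro ε hε
      exact Pool.Agent.Helper85.LQ.st_L1 θ hθ hθ1 hG ((threshold_iff _).1 hT) ε hε
  · have h := halfplane_iff regZf
    constructor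
    · rintro ⟨θ, hθ, hz⟩
      have h1 : (1 / 2 : ℝ) ≤ max θ (1 / 2) := le_max_right _ _
      refine ⟨(max θ (1 / 2) - 1 / 2) / 2, ?_, hdir _ h1 ?_⟩
      · have : max θ (1 / 2) < 1 := max_lt hθ (by norm_num)
        linarith
      · intro ε hε
        refine ⟨0, fun s hs _ => ?_⟩
        by_contra hcon
        rw [not_le] at hcon
        exact hz s (by linarith [le_max_left θ (1 / 2)]) hs
    · rintro ⟨κ, hκ, hT⟩
      obtain ⟨X, hX⟩ := (threshold_iff κ).1 hT ((κ + 1 / 4) / 2) (by linarith)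
      obtain ⟨θ, hθ, hz⟩ := h.2 ⟨(κ + 1 / 4) / 2, by linarith, X, hX⟩
      exact ⟨θ, hθ, hz⟩
  · have h1 : Threshold ((1 - 1 / 2) / 2) := hdir 1 (by norm_num) fun ε hε =>
      ⟨0, fun s hs _ => by
        by_contra hcon
        rw [not_le] at hcon
        exact riemannZeta_ne_zero_of_one_le_re (by linarith) hs⟩
    have h2 : ((1 : ℝ) - 1 / 2) / 2 = 1 / 4 := by norm_num
    rwa [h2] at h1
  · intro c hc
    obtain ⟨θ, hθ, h⟩ := seen hc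
    refine ⟨θ, hθ, fun s h1 h2 h3 => ?_⟩
    obtain ⟨m, hm, hneg⟩ := h s h1 h2 h3
    exact ⟨m, hm, lt_of_not_ge fun h0 => absurd ((laguerre_nonneg m s.im).1 h0) (not_le.2 hneg)⟩
  · intro a κ ε ha0 ha1 hκ hε
    obtain ⟨R, hR⟩ := Pool.Agent.Helper75.AL.sharp_loc ha0 ha1 hκ hε
    exact ⟨R, fun x hx hl hb => hR x hx ((near_iff κ x R).1 hl) hb⟩
  · intro B κ hκ hB
    obtain ⟨R, hR⟩ := hy5 B κ hκ hB
    exact ⟨R, fun x hx hz m hm => (laguerre_pos m x).2 (hR x hx hz m hm)⟩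
  · intro B ε hB0 hB1 hε
    exact Pool.Agent.Helper75.AL.line_loc hB0 hB1 hε
  · intro κ B hκ hB
    obtain ⟨C, hC⟩ := bad_le_Z hκ hB
    exact ⟨C, fun T hT => by rw [bad_eq]; exact hC T hT⟩
  · intro κ ε hκ hκ1 hε
    obtain ⟨C, hC⟩ := bad_density hκ hκ1 hε
    exact ⟨C, fun T hT => by rw [bad_eq]; exact hC T hT⟩

end Pool.Agent.Results.MP_5a4862_nt.LaguerreLinearLaw
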