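import Pool.Agent.Helper75.Xi.Fin2
import Pool.Agent.Helper85.DQ.Fin4
import Pool.Agent.Helper4.Hor

/-!
# Zeros of the derivatives of the Riemann xi function and zero-free half-planes

The zeros of `ξ^(m)` at the height `t` are those of zeta, moved to the left by `2m/log t`.

(1) Unconditionally all zeros of `ξ^(m)` up to the height `e^(Am)`, `A < 4`, `m` large, are simple and on the critical
line; zeta has a zero-free half-plane `Re s > θ`, `θ < 1`, if and only if this holds for some `A > 4`. For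
`0 < c < 1/4` the real parts of the zeros of `ξ^(m)` up to the height `e^(m/c)` are at most `1 - 2c + o(1)`, and zeta
has a zero-free half-plane if and only if `1 - 2c` can be replaced by a smaller number.
(2) For each `θ`: the zeros of zeta at large heights have real parts at most `θ + ε` if and only if zeta has the growth
bound to the right of `θ` and the exponents `A < 2/(θ - 1/2)` are possible in (1).
(3) Origin: every zero of `ξ^(m)` which is off the critical line, or multiple, comes from a zero of zeta at a bounded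
distance whose real part is larger by `2m/log t`.
(4) Fate: every zero `β + iγ` of zeta is followed by zeros of `ξ^(m)` with real parts at least `β - 2m/log γ - ε`,
unless a positive proportion of the zeros near its height have real part at least `β - ε`; the zeros near
`Re s = 1` are followed in any case.
(5) Unconditionally at all heights all but a proportion `C e^(-cm)` of the zeros of `ξ^(m)` are simple and on the line.
-/

set_option autoImplicit false

open Complex Filter Topology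
open scoped ENNReal

namespace Pool.Agent.Results.MP_5a4862_nt.XiDerivatives

/-- the Riemann xi function `s (s - 1) π^(-s/2) Γ(s/2) ζ(s) / 2`, an entire function -/
noncomputable def xi (s : ℂ) : ℂ := (s * (s - 1) * completedRiemannZeta₀ s + 1) / 2

/-- all zeros of the zeta function at large heights have real part at most `θ` -/
def ZerosLeft (θ : ℝ) : Prop :=
  ∃ T : ℝ, ∀ s : ℂ, riemannZeta s = 0 → T ≤ |s.im| → s.re ≤ θ

/-- zeta has a zero-free half-plane (the question Q1) -/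
def HalfPlane : Prop := ∃ θ : ℝ, θ < 1 ∧ ∀ s : ℂ, θ < s.re → riemannZeta s ≠ 0

/-- `ζ(s) = O((Im s)^ε)` uniformly in `Re s ≥ σ`, for each `σ > θ` and each `ε > 0` -/
def Growth (θ : ℝ) : Prop :=
  ∀ σ > θ, ∀ ε > 0, ∃ C : ℝ, ∀ s : ℂ, σ ≤ s.re → 1 ≤ s.im → ‖riemannZeta s‖ ≤ C * s.im ^ (ε : ℝ)

/-- for all large `m`, all zeros of the `m`-th derivative of `ξ` up to the height `e^(Am)` are simple and on the
critical line -/
def OnLine (A : ℝ) : Prop :=
  ∃ m₀ : ℕ, ∀ m : ℕ, m₀ ≤ m → ∀ s : ℂ, |s.im| ≤ Real.exp (A * m) → iteratedDeriv m xi s = 0 →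
    s.re = 1 / 2 ∧ iteratedDeriv (m + 1) xi s ≠ 0

/-- the zeros of the derivatives `ξ^(m)` with `T ≤ |Im s| ≤ e^(m/c)` have real part at most `σ`, for some `T` -/
def Below (c σ : ℝ) : Prop :=
  ∃ T : ℝ, ∀ (m : ℕ) (s : ℂ), T ≤ |s.im| → |s.im| ≤ Real.exp (m / c) → iteratedDeriv m xi s = 0 → s.re ≤ σ

/-- the number, with multiplicity, of the zeros of zeta with `σ ≤ Re s` and `a ≤ Im s ≤ b` -/
noncomputable def zetaZeros (σ a b : ℝ) : ℝ≥0∞ :=
  ∑' s : {s : ℂ | σ ≤ s.re ∧ a ≤ s.im ∧ s.im ≤ b}, ((analyticOrderAt riemannZeta (s : ℂ) : ℕ∞) : ℝ≥0∞)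

/-- the number, with multiplicity, of the zeros of the `m`-th derivative with `0 < Im s ≤ T` which
are off the critical line or not simple -/
noncomputable def exceptional (m : ℕ) (T : ℝ) : ℝ≥0∞ :=
  ∑' s : {s : ℂ | 0 < s.im ∧ s.im ≤ T ∧ (s.re ≠ 1 / 2 ∨ iteratedDeriv (m + 1) xi s = 0)},
    ((analyticOrderAt (iteratedDeriv m xi) (s : ℂ) : ℕ∞) : ℝ≥0∞)

/-- the ordinates in `(0, T]` of the simple zeros of the `m`-th derivative on the critical line -/
def simpleOnLine (m : ℕ) (T : ℝ) : Set ℝ :=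
  {t : ℝ | 0 < t ∧ t ≤ T ∧ iteratedDeriv m xi (1 / 2 + t * I) = 0 ∧
    iteratedDeriv (m + 1) xi (1 / 2 + t * I) ≠ 0}

open Pool.Agent.Helper75.Jen Pool.Agent.Helper75.Xi in
lemma xi_iter (m : ℕ) : iteratedDeriv m xi = fun s => 1 / 8 * iteratedDeriv m fx (s - 1 / 2) := by
  induction m with
  | zero =>
    funext s
    simp only [iteratedDeriv_zero]
    unfold xi fx
    have : (1 / 2 + (s - 1 / 2) : ℂ) = s := by ring
    rw [this]
    ring
  | succ m ih =>
    rw [iteratedDeriv_succ, ih]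
    funext s
    have h0 : HasDerivAt (fun s : ℂ => s - 1 / 2) 1 s := (hasDerivAt_id s).sub_const _
    have h1 : HasDerivAt (fun s => iteratedDeriv m fx (s - 1 / 2))
        (deriv (iteratedDeriv m fx) (s - 1 / 2) * 1) s :=
      HasDerivAt.comp (h := fun s : ℂ => s - 1 / 2) s (fx_iter_diff m (s - 1 / 2)).hasDerivAt h0
    rw [(h1.const_mul (1 / 8 : ℂ)).deriv, iteratedDeriv_succ, mul_one]

open Pool.Agent.Helper75.Jen Pool.Agent.Helper75.Xi in
lemma xi_zero (m : ℕ) (s : ℂ) : iteratedDeriv m xi s = 0 ↔ iteratedDeriv m fx (s - 1 / 2) = 0 := by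
  rw [xi_iter]
  simp

open Pool.Agent.Helper75.Jen Pool.Agent.Helper75.Xi in
lemma exceptional_eq (m : ℕ) (T : ℝ) : exceptional m T =
    Pool.Agent.H21.Xi.cnt (iteratedDeriv m fx) {w : ℂ | 0 < w.im ∧ w.im ≤ T ∧ w ∈ Bad m} := by
  classical
  unfold exceptional Pool.Agent.H21.Xi.cnt
  rw [tsum_subtype {s : ℂ | 0 < s.im ∧ s.im ≤ T ∧ (s.re ≠ 1 / 2 ∨ iteratedDeriv (m + 1) xi s = 0)}
      (fun z => ((analyticOrderAt (iteratedDeriv m xi) z : ℕ∞) : ℝ≥0∞)),
    tsum_subtype {w : ℂ | 0 < w.im ∧ w.im ≤ T ∧ w ∈ Bad m}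
      (fun z => ((analyticOrderAt (iteratedDeriv m fx) z : ℕ∞) : ℝ≥0∞)),
    ← (Equiv.addRight (1 / 2 : ℂ)).tsum_eq]
  refine tsum_congr fun w => ?_
  have e0 : (Equiv.addRight (1 / 2 : ℂ)) w = w + 1 / 2 := rfl
  have him : (w + 1 / 2 : ℂ).im = w.im := by simp
  have hre : (w + 1 / 2 : ℂ).re = w.re + 1 / 2 := by simp
  have hiff : (w + 1 / 2 : ℂ) ∈ {s : ℂ | 0 < s.im ∧ s.im ≤ T ∧
      (s.re ≠ 1 / 2 ∨ iteratedDeriv (m + 1) xi s = 0)} ↔
      w ∈ {w : ℂ | 0 < w.im ∧ w.im ≤ T ∧ w ∈ Bad m} := by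
    simp only [Set.mem_ofPred_eq, Bad, him, hre, xi_zero, add_sub_cancel_right]
    have : w.re + 1 / 2 ≠ 1 / 2 ↔ w.re ≠ 0 := by
      constructor
      · intro h h0; apply h; rw [h0]; norm_num
      · intro h h0; apply h; linarith
    rw [this]
  rw [e0]
  by_cases h : w ∈ {w : ℂ | 0 < w.im ∧ w.im ≤ T ∧ w ∈ Bad m}
  · rw [Set.indicator_of_mem h, Set.indicator_of_mem (hiff.2 h)]
    have h1 : AnalyticAt ℂ (fun s : ℂ => s - 1 / 2) (w + 1 / 2) := by fun_prop
    have h2 : deriv (fun s : ℂ => s - 1 / 2) (w + 1 / 2) ≠ 0 := by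
      have h0 : HasDerivAt (fun s : ℂ => s - 1 / 2) 1 (w + 1 / 2) := (hasDerivAt_id _).sub_const _
      rw [h0.deriv]
      exact one_ne_zero
    have h3 := analyticOrderAt_comp_of_deriv_ne_zero (f := iteratedDeriv m fx) h1 h2
    rw [add_sub_cancel_right] at h3
    have h4 : analyticOrderAt (iteratedDeriv m xi) (w + 1 / 2) =
        analyticOrderAt (iteratedDeriv m fx ∘ fun s : ℂ => s - 1 / 2) (w + 1 / 2) := by
      rw [xi_iter]
      have h5 : AnalyticAt ℂ (fun _ : ℂ => (1 / 8 : ℂ)) (w + 1 / 2) := analyticAt_const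
      have h6 : AnalyticAt ℂ (iteratedDeriv m fx ∘ fun s : ℂ => s - 1 / 2) (w + 1 / 2) := by
        have hd : Differentiable ℂ (iteratedDeriv m fx ∘ fun s : ℂ => s - 1 / 2) :=
          (fx_iter_diff m).comp (by fun_prop)
        exact hd.analyticAt _
      have h7 := analyticOrderAt_mul h5 h6
      rw [h5.analyticOrderAt_eq_zero.2 (by norm_num), zero_add] at h7
      exact h7
    rw [h4, h3]
  · rw [Set.indicator_of_notMem h, Set.indicator_of_notMem (fun h' => h (hiff.1 h'))]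

open Pool.Agent.Helper75.Jen Pool.Agent.Helper75.Xi in
lemma simple_eq (m : ℕ) (T : ℝ) : simpleOnLine m T = Gd m T := by
  ext t
  have h1 : (1 / 2 + (t : ℂ) * I - 1 / 2) = t * I := by ring
  simp only [simpleOnLine, Gd, Set.mem_ofPred_eq, xi_zero, ne_eq, h1]


lemma xi_eq' : xi = Pool.Agent.Helper85.LG.xi := rfl

lemma iter_zero (m : ℕ) (s : ℂ) :
    iteratedDeriv m Pool.Agent.Helper85.DQ.Fx (s - 1 / 2) = iteratedDeriv m xi s := by
  rw [Pool.Agent.Helper85.DQ.Fx_iter_xi, xi_eq']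
  congr 1
  ring

lemma onLine_few {θ A : ℝ} (hF : ZerosLeft θ) (hA : 0 < A) (hAθ : A * (θ - 1 / 2) < 2) : OnLine A := by
  obtain ⟨m0, hm0⟩ := Pool.Agent.Helper85.DQ.dir_few (θ := θ) hF hA (by rw [lt_div_iff₀ hA]; linarith)
  refine ⟨m0, fun m hm s hs h => ?_⟩
  have e2 : (s - 1 / 2).im = s.im := by simp
  have e1 : (s - 1 / 2).re = s.re - 1 / 2 := by simp
  have h5 := hm0 m hm (s - 1 / 2) (by rw [e2]; exact hs) (by rw [iter_zero]; exact h)
  rw [e1, iter_zero] at h5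
  exact ⟨by linarith [h5.1], h5.2⟩

lemma SL : Pool.Agent.Helper85.DQ.SaddleLow := fun _ _ _ h1 h2 h3 => Pool.Agent.Helper85.DQ.saddle_low h1 h2 h3

open Pool.Agent.Helper85.DQ in
/-- **The zeros of the derivatives of the Riemann xi function and zero-free half-planes.** -/
theorem result :
    -- (1) for `A < 4` and all large `m` all zeros of `ξ^(m)` up to the height `e^(Am)` are simple and on the critical
    -- line; zeta has a zero-free half-plane if and only if this holds for some `A > 4`; the real parts of the zeros up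
    -- to the height `e^(m/c)` are at most `1 - 2c + o(1)`, and zeta has a zero-free half-plane if and only if this
    -- can be improved
    ((∀ A : ℝ, A < 4 → OnLine A) ∧ (HalfPlane ↔ ∃ A : ℝ, 4 < A ∧ OnLine A) ∧
      ∀ c : ℝ, 0 < c → c < 1 / 4 → (∀ δ > 0, Below c (1 - 2 * c + δ)) ∧
        (HalfPlane ↔ ∃ δ > 0, Below c (1 - 2 * c - δ))) ∧
    -- (2) for each `θ ≥ 1/2`: the zeros of zeta at large heights are in `Re s ≤ θ + ε`, for all `ε > 0`, if and only
    -- if zeta has the growth bound to the right of `θ` and the first part of (1) holds for all `A < 2/(θ - 1/2)`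
    (∀ θ : ℝ, 1 / 2 ≤ θ → ((∀ ε > 0, ZerosLeft (θ + ε)) ↔
      Growth θ ∧ ∀ A : ℝ, A * (θ - 1 / 2) < 2 → OnLine A)) ∧
    -- (3) origin: every zero of `ξ^(m)` at the height `t` which is off the critical line, or multiple, has a zero `ρ`
    -- of zeta at a bounded distance with real part at least `1/2 + |Re s - 1/2| + 2m/log t - δ`
    (∀ δ : ℝ, 0 < δ → ∃ K : ℝ, ∀ (m : ℕ) (s : ℂ), K ≤ s.im → δ * Real.log s.im ≤ m → iteratedDeriv m xi s = 0 →
      (s.re ≠ 1 / 2 ∨ iteratedDeriv (m + 1) xi s = 0) → ∃ ρ : ℂ, riemannZeta ρ = 0 ∧ |ρ.im - s.im| ≤ K ∧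
        1 / 2 + |s.re - 1 / 2| + 2 * m / Real.log s.im - δ ≤ ρ.re) ∧
    -- (4) fate: every zero `ρ = β + iγ` of zeta with at most `(log γ)/K` zeros in `Re s ≥ β - ε`, `|Im s - γ| ≤ K`
    -- is followed by zeros of `ξ^(m)` with real part at least `β - 2m/log γ - ε`, until this reaches the line; the
    -- zeros near `Re s = 1` are followed without this condition
    ((∀ ε : ℝ, 0 < ε → ∃ K : ℝ, 0 < K ∧ ∀ ρ : ℂ, riemannZeta ρ = 0 → K ≤ ρ.im →
      zetaZeros (ρ.re - ε) (ρ.im - K) (ρ.im + K) ≤ ENNReal.ofReal (Real.log ρ.im / K) →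
      ∀ m : ℕ, ε * Real.log ρ.im ≤ m → 2 * m / Real.log ρ.im ≤ ρ.re - 1 / 2 - ε →
        ∃ z : ℂ, iteratedDeriv m xi z = 0 ∧ ρ.re - 2 * m / Real.log ρ.im - ε < z.re ∧ |z.im - ρ.im| ≤ 11) ∧
      ∀ c : ℝ, 0 < c → c < 1 / 4 → ∀ ε : ℝ, 0 < ε → ∃ θ : ℝ, θ < 1 ∧ ∃ κ : ℝ, 0 < κ ∧ ∀ ρ : ℂ, θ < ρ.re →
        riemannZeta ρ = 0 → ∀ m : ℕ, |(m : ℝ) - c * Real.log (|ρ.im|)| ≤ κ * Real.log (|ρ.im|) →
          ∃ z : ℂ, iteratedDeriv m xi z = 0 ∧ 1 - 2 * c - ε < z.re ∧ |z.im - ρ.im| ≤ 5) ∧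
    -- (5) at all heights all zeros of `ξ^(m)` but a proportion `C e^(-cm)` are simple and on the critical line
    (∃ (C c : ℝ) (m₀ : ℕ), 0 < C ∧ 0 < c ∧ ∀ m : ℕ, m₀ ≤ m →
      (∀ T : ℝ, 1 ≤ T →
        exceptional m T ≤ ENNReal.ofReal (C * Real.exp (-(c * m)) * (T * Real.log T))) ∧
      ∀ T : ℝ, (simpleOnLine m T).Finite ∧
        exceptional m T ≤ ENNReal.ofReal (C * Real.exp (-(c * m))) * ((simpleOnLine m T).ncard : ℝ≥0∞)) := by
  have pos : ∀ A : ℝ, (∀ B : ℝ, 0 < B → A ≤ B → OnLine B → OnLine A) := by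
    rintro A B - hAB ⟨m0, h⟩
    refine ⟨m0, fun m hm s hs => h m hm s (hs.trans (Real.exp_le_exp.2 ?_))⟩
    gcongr
  have hlt4 : ∀ A : ℝ, A < 4 → OnLine A := fun A hA => by
    have h1 : 0 < max A 1 := lt_of_lt_of_le one_pos (le_max_right _ _)
    refine pos A (max A 1) h1 (le_max_left _ _) (onLine_few Pool.Agent.Helper75.JE.few_one h1 ?_)
    have h2 : max A 1 < 4 := max_lt hA (by norm_num)
    linarith
  refine ⟨⟨hlt4, ⟨?_, ?_⟩, fun c hc hc4 => ⟨fun δ hδ => ?_, ⟨?_, ?_⟩⟩⟩, fun θ hθ => ?_,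
    fun δ hδ => origin_xi hδ, ⟨fun ε hε => fate_xi hε, fun c hc hc4 ε hε => ?_⟩, ?_⟩
  · rintro ⟨θ, hθ, hz⟩
    obtain ⟨θ', hθ', h1, h2⟩ : ∃ θ' : ℝ, θ ≤ θ' ∧ 1 / 2 < θ' ∧ θ' < 1 :=
      ⟨max θ (3 / 4), le_max_left _ _, lt_of_lt_of_le (by norm_num) (le_max_right _ _),
        max_lt hθ (by norm_num)⟩
    have hF : ZerosLeft θ' := ⟨0, fun s hs _ => by
      by_contra hcon
      exact hz s (lt_of_le_of_lt hθ' (not_le.1 hcon)) hs⟩
    have h3 : 4 < 2 / (θ' - 1 / 2) := by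
      rw [lt_div_iff₀ (by linarith)]
      linarith
    obtain ⟨A, hA4, hA2⟩ := exists_between h3
    rw [lt_div_iff₀ (by linarith)] at hA2
    exact ⟨A, hA4, onLine_few hF (by linarith) hA2⟩
  · rintro ⟨A, hA, m0, H⟩
    obtain ⟨θ, hθ, hz⟩ := (iff_four SL).2 ⟨A, hA, m0, fun m hm s hs h => (H m hm s hs h).1⟩
    exact ⟨θ, hθ, hz⟩
  · obtain ⟨T, -, H⟩ := left_all (θ := 1) (δ := min δ c)
      (fun s hs => riemannZeta_ne_zero_of_one_le_re hs.le) (by norm_num) (lt_min hδ hc)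
    refine ⟨max T 3, fun m s hT hm h => ?_⟩
    have hT1 : T ≤ |s.im| := (le_max_left _ _).trans hT
    have hT3 : 3 ≤ |s.im| := (le_max_right _ _).trans hT
    have hlog : 0 < Real.log |s.im| := Real.log_pos (by linarith)
    have hm' : c * Real.log |s.im| ≤ m := by
      have h1 := Real.log_le_log (by linarith) hm
      rw [Real.log_exp, le_div_iff₀ hc] at h1
      linarith
    have e2 : (s - 1 / 2).im = s.im := by simp
    have e1 : (s - 1 / 2).re = s.re - 1 / 2 := by simp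
    have h5 := H m (s - 1 / 2) (by rw [e2]; exact hT1) (by
      rw [e2]
      refine le_trans ?_ hm'
      exact mul_le_mul_of_nonneg_right (min_le_right _ _) hlog.le) (by rw [iter_zero]; exact h)
    rw [e1, e2] at h5
    have h6 : 2 * c ≤ 2 * m / Real.log |s.im| := by
      rw [le_div_iff₀ hlog]
      linarith
    have h7 : max 0 (1 - 1 / 2 - 2 * m / Real.log |s.im|) ≤ 1 / 2 - 2 * c :=
      max_le (by linarith) (by linarith)
    have h8 := min_le_left δ c
    linarith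
  · intro hH
    obtain ⟨δ, hδ, T, H⟩ := (iff_c SL hc hc4).1 hH
    exact ⟨δ, hδ, T, H⟩
  · rintro ⟨δ, hδ, T, H⟩
    obtain ⟨θ, hθ, hz⟩ := (iff_c SL hc hc4).2 ⟨δ, hδ, T, H⟩
    exact ⟨θ, hθ, hz⟩
  · constructor
    · intro h
      refine ⟨((master_xi hθ).1 h).1, fun A hAθ => ?_⟩
      -- a positive exponent above `A`
      obtain ⟨B, hB0, hAB, hBθ⟩ : ∃ B : ℝ, 0 < B ∧ A ≤ B ∧ B * (θ - 1 / 2) < 2 := by
        rcases le_or_gt A 0 with hA | hA
        · refine ⟨1 / (θ + 1), by positivity, hA.trans (by positivity), ?_⟩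
          rw [div_mul_eq_mul_div, div_lt_iff₀ (by linarith)]
          linarith
        · exact ⟨A, hA, le_rfl, hAθ⟩
      obtain ⟨e, he, hBe⟩ : ∃ e : ℝ, 0 < e ∧ B * (θ + e - 1 / 2) < 2 := by
        refine ⟨(2 - B * (θ - 1 / 2)) / (2 * B), div_pos (by linarith) (by positivity), ?_⟩
        have h5 : B * ((2 - B * (θ - 1 / 2)) / (2 * B)) = (2 - B * (θ - 1 / 2)) / 2 := by
          field_simp
        have h7 : B * (θ + (2 - B * (θ - 1 / 2)) / (2 * B) - 1 / 2) =
            B * (θ - 1 / 2) + B * ((2 - B * (θ - 1 / 2)) / (2 * B)) := by ring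
        rw [h7, h5]
        linarith
      exact pos A B hB0 hAB (onLine_few (h e he) hB0 hBe)
    · rintro ⟨hG, hH⟩
      refine (master_xi hθ).2 ⟨hG, fun A _ hAθ => ?_⟩
      obtain ⟨m0, h⟩ := hH A hAθ
      exact ⟨m0, fun m hm s hs h0 => (h m hm s hs h0).1⟩
  · obtain ⟨θ, hθ, κ, hκ, H⟩ := seen_all SL hc hc4 hε
    refine ⟨θ, hθ, κ, hκ, fun ρ h1 h2 m h3 => ?_⟩
    obtain ⟨z, h4, h5, h6⟩ := H ρ h1 h2 m h3
    exact ⟨z, h4, h5, h6.le⟩
  · obtain ⟨C, c, m₀, hC, hc, h⟩ := Pool.Agent.Helper75.Xi.main_prop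
    refine ⟨C, c, m₀, hC, hc, ?_⟩
    intro m hm
    obtain ⟨-, hB, hD⟩ := h m hm
    refine ⟨?_, ?_⟩
    · intro T hT
      rw [exceptional_eq]
      exact hB T hT
    · intro T
      refine ⟨?_, ?_⟩
      · rw [simple_eq]
        exact (Pool.Agent.Helper75.Xi.zeros_fin m T).subset fun y hy => ⟨hy.1, hy.2.1, hy.2.2.1⟩
      · rw [exceptional_eq, simple_eq]
        exact hD T

end Pool.Agent.Results.MP_5a4862_nt.XiDerivatives
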